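import Pool.Agent.R832.BF.Ch
import Pool.Agent.R832.BF.Cu

set_option autoImplicit false

namespace Pool.Agent.R832.BF

open Pool.Agent.R832.BT (Chart fib red LocRing IsHomog IsFamily ConstRing Trivialization)

universe u

open Polynomial in
/-- `X ^ 5 + (y ^ 5 - 1)` is irreducible over `K[y]` -/
lemma irr_fermat {K : Type u} [CommRing K] [IsDomain K] (h3 : (5 : K) ≠ 0) :
    Irreducible (X ^ 5 + C (X ^ 5 - 1) : K[X][X]) := by
  have hm : (X ^ 5 + C (X ^ 5 - 1) : K[X][X]).Monic := by monicity!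
  have hd : (X ^ 5 + C (X ^ 5 - 1) : K[X][X]).degree = 5 := by compute_degree!
  have hprime : (Ideal.span {(X - C 1 : K[X])}).IsPrime := by
    rw [Ideal.span_singleton_prime (X_sub_C_ne_zero 1)]
    exact prime_X_sub_C 1
  have hfac : (X ^ 5 - 1 : K[X]) = (X - C 1) * (X ^ 4 + X ^ 3 + X ^ 2 + X + 1) := by
    rw [C_1]; ring
  refine irreducible_of_eisenstein_criterion hprime ?_ ?_ ?_ ?_ hm.isPrimitive
  · rw [hm.leadingCoeff]
    intro h
    exact hprime.ne_top ((Ideal.eq_top_iff_one _).2 h)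
  · intro n hn
    rw [hd] at hn
    have hn' : n < 5 := by exact_mod_cast hn
    rw [coeff_add, coeff_X_pow, if_neg (by omega), zero_add]
    rcases Nat.eq_zero_or_pos n with rfl | h
    · rw [coeff_C_zero, hfac]
      exact Ideal.mul_mem_right _ _ (Ideal.subset_span rfl)
    · rw [coeff_C_of_ne_zero (by omega)]
      exact Ideal.zero_mem _
  · rw [hd]; norm_num
  · rw [coeff_add, coeff_X_pow, if_neg (by norm_num), zero_add, coeff_C_zero,
      Ideal.span_singleton_pow, Ideal.mem_span_singleton, hfac]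
    rintro ⟨q, hq⟩
    have h0 : (X - C 1 : K[X]) ≠ 0 := X_sub_C_ne_zero 1
    have h1 : (X ^ 4 + X ^ 3 + X ^ 2 + X + 1 : K[X]) = (X - C 1) * q := by
      apply mul_left_cancel₀ h0
      rw [hq]; ring
    have h2 := congrArg (Polynomial.eval 1) h1
    simp at h2
    apply h3
    rw [← h2]; norm_num

open MvPolynomial in
/-- the chart of the fibre at `0` is a domain -/
lemma chart0_domain {k : Type u} [Field k] (h3 : (5 : k) ≠ 0) : IsDomain (Chart (J (0 : k))) := by
  have h3K : (5 : MvPolynomial (Fin 2) k) ≠ 0 := by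
    rw [show (5 : MvPolynomial (Fin 2) k) = C 5 from (map_ofNat C 5).symm, Ne, C_eq_zero]
    exact h3
  set P : Polynomial (Polynomial (MvPolynomial (Fin 2) k)) := Polynomial.X ^ 5 + Polynomial.C (Polynomial.X ^ 5 - 1)
  have hP : Prime P := UniqueFactorizationMonoid.irreducible_iff_prime.1 (irr_fermat h3K)
  have := AdjoinRoot.isDomain_of_prime hP
  set T := AdjoinRoot P
  let o : Polynomial (MvPolynomial (Fin 2) k) →+* T := AdjoinRoot.of P
  let ι : k →+* T := o.comp (Polynomial.C.comp C)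
  have hroot : (AdjoinRoot.root P) ^ 5 + (o Polynomial.X ^ 5 - 1) = 0 := by
    have h : (AdjoinRoot.root P) ^ 5 + AdjoinRoot.of P (Polynomial.X ^ 5 - 1) = 0 := cube_root _
    have h2 : AdjoinRoot.of P (Polynomial.X ^ 5 - 1) = o Polynomial.X ^ 5 - 1 := by
      rw [map_sub, map_pow, map_one]
    rw [h2] at h
    exact h
  have h33 : ι 5 * ι 5⁻¹ = 1 := by rw [← map_mul, mul_inv_cancel₀ h3, map_one]
  have e3 : ι 5 = 5 := map_ofNat ι 5
  rw [e3] at h33
  let Θ : Chart (J (0 : k)) →+* T := chartHom 0 ι (o (Polynomial.C (X 0))) (AdjoinRoot.root P)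
    (ι 5⁻¹ * (o (Polynomial.C (X 0))) ^ 5) (o Polynomial.X) (o (Polynomial.C (X 1))) (by
      rw [map_zero]
      linear_combination (-(o (Polynomial.C (X 0))) ^ 5) * h33) (by
      rw [map_zero]
      linear_combination hroot)
  let i : Polynomial (MvPolynomial (Fin 2) k) →+* Chart (J (0 : k)) :=
    Polynomial.eval₂RingHom (MvPolynomial.eval₂Hom (cn 0) ![vr 0 0, vr 0 4]) (vr 0 3)
  have hiX : i Polynomial.X = vr 0 3 := by simp [i]
  have hi0 : i (Polynomial.C (X 0)) = vr 0 0 := by simp [i]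
  have hi1 : i (Polynomial.C (X 1)) = vr 0 4 := by simp [i]
  have hiC : ∀ t, i (Polynomial.C (C t)) = cn 0 t := by intro t; simp [i]
  have hlift : P.eval₂ i (vr 0 1) = 0 := by
    apply lift_cond
    have h := rel2 (0 : k)
    rw [map_zero] at h
    rw [map_sub, map_pow, map_one, hiX]
    linear_combination h
  let Ξ : T →+* Chart (J (0 : k)) := AdjoinRoot.lift i (vr 0 1) hlift
  have hΞo : ∀ z, Ξ (o z) = i z := fun z => AdjoinRoot.lift_of hlift
  have hΞr : Ξ (AdjoinRoot.root P) = vr 0 1 := AdjoinRoot.lift_root hlift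
  have hc : Ξ.comp Θ = RingHom.id _ := by
    have F1 := rel1 (0 : k)
    rw [map_zero] at F1
    have h34 : cn (0 : k) 5 * cn (0 : k) (5⁻¹) = 1 := by
      rw [← map_mul, mul_inv_cancel₀ h3, map_one]
    have e33 : cn (0 : k) 5 = 5 := map_ofNat (cn (0 : k)) 5
    rw [e33] at h34
    have hι : ∀ t, Ξ (ι t) = cn 0 t := by
      intro t
      rw [show ι t = o (Polynomial.C (C t)) from rfl, hΞo, hiC]
    apply chart_ext
    · intro r
      rw [RingHom.comp_apply, RingHom.id_apply, chartHom_cn, hι]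
    · intro j
      rw [RingHom.comp_apply, RingHom.id_apply, chartHom_vr]
      fin_cases j
      · exact (hΞo _).trans hi0
      · exact hΞr
      · change Ξ (ι 5⁻¹ * (o (Polynomial.C (X 0))) ^ 5) = vr 0 2
        rw [map_mul, hι, map_pow, hΞo, hi0]
        linear_combination (vr 0 2) * h34 + cn 0 5⁻¹ * F1
      · exact (hΞo _).trans hiX
      · exact (hΞo _).trans hi1
      · change Ξ 1 = vr 0 5
        rw [map_one, vr5]
  have hinj : Function.Injective Θ := by
    intro x y hxy
    have := congrArg Ξ hxy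
    rwa [← RingHom.comp_apply, ← RingHom.comp_apply, hc] at this
  exact hinj.isDomain Θ

end Pool.Agent.R832.BF
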