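import Pool.Agent.R832.BF.Fld
import Pool.Agent.R832.BF.Dom
import Pool.Agent.R832.BF.FL

set_option autoImplicit false

namespace Pool.Agent.R832.BF

open Pool.Agent.R832.BT (Chart fib red LocRing IsHomog IsFamily ConstRing Trivialization)

open Polynomial

universe u v

section Gen

variable {A : Type u} [CommRing A] (s : A) {F : Type u} [Field F] (j : Cv s →+* F)

/-- constants in `F[x][y]` -/
noncomputable def kF : A →+* F[X][X] := (C.comp C).comp (j.comp (kp s))

/-- the functions on the chart as polynomials in `x`, `y` over the function field of the curve -/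
noncomputable def Th2 (h0 : j (kp s s) ≠ 0) : Chart (J s) →+* F[X][X] :=
  chartHom s (kF s j) (C (C (j (AdjoinRoot.root (pol s))))) (C X)
    (C (C (j (AdjoinRoot.of (pol s) X)))) X
    (C (C (j (kp s s))⁻¹) * ((C X) ^ 5 + X ^ 5 - 1)) (by
      have h := cv_rel s
      have h' := congrArg (fun z => (C (C (j z)) : F[X][X])) h
      simp only [map_add, map_mul, map_pow, map_ofNat] at h'
      have hk : kF s j s = C (C (j (kp s s))) := rfl
      rw [hk]
      exact h') (by
      have e : kF s j s * C (C (j (kp s s))⁻¹) = 1 := by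
        change (C (C (j (kp s s))) : F[X][X]) * C (C (j (kp s s))⁻¹) = 1
        rw [← C_mul, ← C_mul, mul_inv_cancel₀ h0, C_1, C_1]
      linear_combination (-((C X) ^ 5 + X ^ 5 - 1)) * e)

/-- evaluation at a point -/
noncomputable def evF (x y : F) : F[X][X] →+* F := (evalRingHom x).comp (evalRingHom (C y))

lemma evF_CC (x y a : F) : evF x y (C (C a)) = a := by simp [evF]
lemma evF_CX (x y : F) : evF x y (C X) = x := by simp [evF]
lemma evF_X (x y : F) : evF x y X = y := by simp [evF]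

lemma j_sg (h0 : j (kp s s) ≠ 0) (x y ξ : A) (h : x ^ 5 + y ^ 5 = 1) (z : Chart (J s)) :
    j (sg s x y ξ h z) = evF (j (kp s (x + s * ξ))) (j (kp s y)) (Th2 s j h0 z) := by
  have : j.comp (sg s x y ξ h)
      = (evF (j (kp s (x + s * ξ))) (j (kp s y))).comp (Th2 s j h0) := by
    apply chart_ext
    · intro r
      rw [RingHom.comp_apply, RingHom.comp_apply, sg, chartHom_cn, Th2, chartHom_cn]
      change _ = evF _ _ (C (C (j (kp s r))))
      rw [evF_CC]
    · intro i
      rw [RingHom.comp_apply, RingHom.comp_apply, sg, chartHom_vr, Th2, chartHom_vr]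
      fin_cases i
      · exact (evF_CC _ _ _).symm
      · exact (evF_CX _ _).symm
      · exact (evF_CC _ _ _).symm
      · exact (evF_X _ _).symm
      · change j (kp s (5 * x ^ 4 * ξ + 10 * x ^ 3 * s * ξ ^ 2 + 10 * x ^ 2 * s ^ 2 * ξ ^ 3 + 5 * x * s ^ 3 * ξ ^ 4 + s ^ 4 * ξ ^ 5)) = evF _ _
          (C (C (j (kp s s))⁻¹) * ((C X) ^ 5 + X ^ 5 - 1))
        have e1 : ∀ a b : F, evF a b (C (C (j (kp s s))⁻¹) * ((C X) ^ 5 + X ^ 5 - 1))
            = (j (kp s s))⁻¹ * (a ^ 5 + b ^ 5 - 1) := by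
          intro a b
          rw [map_mul, evF_CC]
          congr 1
          simp only [map_sub, map_add, map_pow, evF_CX, evF_X, map_one]
        rw [e1, eq_inv_mul_iff_mul_eq₀ h0]
        have e2 : kp s (s * (5 * x ^ 4 * ξ + 10 * x ^ 3 * s * ξ ^ 2 + 10 * x ^ 2 * s ^ 2 * ξ ^ 3 + 5 * x * s ^ 3 * ξ ^ 4 + s ^ 4 * ξ ^ 5))
            = kp s ((x + s * ξ) ^ 5 + y ^ 5 - 1) := by
          congr 1
          linear_combination -h
        have e3 := congrArg j e2
        simp only [map_mul, map_sub, map_add, map_pow, map_one, map_ofNat] at e3 ⊢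
        exact e3
      · change j 1 = evF _ _ 1
        rw [map_one, map_one]
  rw [← RingHom.comp_apply, this, RingHom.comp_apply]

end Gen

section NS

variable {k : Type u} [Field k] [IsAlgClosed k] (h3 : (5 : k) ≠ 0)

include h3 in
/-- nonzero functions on the special fibre do not vanish on all the lines -/
lemma exists_pt (z : Chart (J (0 : k))) (hz : z ≠ 0) :
    ∃ (x y ξ : k) (h : x ^ 5 + y ^ 5 = 1), pt h3 x y ξ h z ≠ 0 := by
  have hD := chart0_domain h3
  set P : Ideal (MvPolynomial (Fin 6) k) := J (0 : k) ⊔ Ideal.span {MvPolynomial.X 5 - 1} with hPd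
  have hP : P.IsPrime := (Ideal.Quotient.isDomain_iff_prime P).1 hD
  obtain ⟨T, rfl⟩ := Ideal.Quotient.mk_surjective z
  have hT : T ∉ P := fun h => hz (Ideal.Quotient.eq_zero_iff_mem.2 h)
  have h01 : (0 : k) ^ 5 + 1 ^ 5 = 1 := by ring
  have h10 : (1 : k) ^ 5 + 0 ^ 5 = 1 := by ring
  have hX : (MvPolynomial.X 1 : MvPolynomial (Fin 6) k) ∉ P := by
    intro h
    have h1 : vr (0 : k) 1 = 0 := Ideal.Quotient.eq_zero_iff_mem.2 h
    have h2 := congrArg (pt h3 1 0 0 h10) h1
    rw [map_zero, pt, chartHom_vr] at h2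
    change (C (1 : k)) = 0 at h2
    rw [C_1] at h2
    exact one_ne_zero h2
  have hXT : MvPolynomial.X 1 * T ∉ P := fun h => (hP.mem_or_mem h).elim hX hT
  rw [← MvPolynomial.IsPrime.vanishingIdeal_zeroLocus (K := k) P,
    MvPolynomial.mem_vanishingIdeal_iff] at hXT
  push Not at hXT
  obtain ⟨p, hp, hpT⟩ := hXT
  rw [MvPolynomial.mem_zeroLocus_iff] at hp
  have hG1 := hp (G1 0) (Ideal.mem_sup_left (Ideal.subset_span (by simp)))
  have hG2 := hp (G2 0) (Ideal.mem_sup_left (Ideal.subset_span (by simp)))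
  have hG5 := hp (MvPolynomial.X 5 - 1) (Ideal.mem_sup_right (Ideal.subset_span rfl))
  simp only [G1, G2, map_sub, map_add, map_mul, map_pow, MvPolynomial.aeval_X, map_one, map_zero,
    map_ofNat] at hG1 hG2 hG5 hpT
  have h5 : p 5 = 1 := sub_eq_zero.1 hG5
  rw [h5] at hG1 hG2
  have hx : p 1 ≠ 0 := left_ne_zero_of_mul hpT
  have hTp : MvPolynomial.aeval p T ≠ 0 := right_ne_zero_of_mul hpT
  have hxy : p 1 ^ 5 + p 3 ^ 5 = 1 := by linear_combination hG2
  refine ⟨p 1, p 3, p 4 / (5 * p 1 ^ 4), hxy, ?_⟩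
  intro h0
  apply hTp
  have hcomp : ((evalRingHom (p 0)).comp (pt h3 (p 1) (p 3) (p 4 / (5 * p 1 ^ 4)) hxy)).comp
      (Ideal.Quotient.mk _) = (MvPolynomial.aeval p : MvPolynomial (Fin 6) k →ₐ[k] k).toRingHom := by
    apply MvPolynomial.ringHom_ext
    · intro r
      change (evalRingHom (p 0)) (pt h3 _ _ _ hxy (cn 0 r)) = MvPolynomial.aeval p (MvPolynomial.C r)
      rw [pt, chartHom_cn]
      simp
    · intro i
      change (evalRingHom (p 0)) (pt h3 _ _ _ hxy (vr 0 i)) = MvPolynomial.aeval p (MvPolynomial.X i)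
      rw [pt, chartHom_vr, MvPolynomial.aeval_X]
      fin_cases i
      · simp
      · simp
      · simp
        field_simp
        linear_combination hG1
      · simp
      · simp
        field_simp
      · simp [h5]
  have := congrArg (fun g => g T) hcomp
  simp only [RingHom.comp_apply] at this
  change (evalRingHom (p 0)) (pt h3 _ _ _ hxy (Ideal.Quotient.mk _ T)) = MvPolynomial.aeval p T at this
  rw [← this, h0, map_zero]

end NS

section Main

variable {k : Type u} [Field k] [IsAlgClosed k] (h3 : (5 : k) ≠ 0)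
  {A : Type u} [CommRing A] [IsDomain A] [Algebra k A] (β : A →ₐ[k] k) (s : A) (hs0 : s ≠ 0)
  (hs : β.toRingHom s = 0)

include h3 hs0 in
/-- solutions of the Fermat equation near the generic point of the special fibre are constant on the
special fibre -/
theorem core (f h g t : Chart (J s)) (e : t * (f ^ 5 + h ^ 5 - g ^ 5) = 0)
    (ht : rc β.toRingHom s hs t ≠ 0) (hg : rc β.toRingHom s hs g ≠ 0) :
    ∃ c : k, rc β.toRingHom s hs f = cn 0 c * rc β.toRingHom s hs g := by
  set b := β.toRingHom with hb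
  have hbk : ∀ c : k, b (algebraMap k A c) = c := fun c => β.commutes c
  have h3A : (5 : A) ≠ 0 := by
    intro h
    apply h3
    have := congrArg b h
    rwa [map_ofNat, map_zero] at this
  obtain ⟨F, _, j, hj⟩ := exists_field h3A s
  have hkp : Function.Injective (kp s) := by
    have h1 : Function.Injective (AdjoinRoot.of (pol s)) := by
      apply AdjoinRoot.of.injective_of_degree_ne_zero
      unfold pol
      rw [degree_X_pow_add_C (by norm_num)]
      norm_num
    exact h1.comp C_injective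
  have h0 : j (kp s s) ≠ 0 := by
    rw [Ne, map_eq_zero_iff j hj, map_eq_zero_iff _ hkp]
    exact hs0
  have h3F : (5 : F) ≠ 0 := by
    rw [← map_ofNat (j.comp (kp s)) 5, Ne,
      map_eq_zero_iff (j.comp (kp s)) (hj.comp hkp)]
    exact h3A
  -- the points
  let a : k → A := algebraMap k A
  have haxy : ∀ x y : k, x ^ 5 + y ^ 5 = 1 → (a x) ^ 5 + (a y) ^ 5 = 1 := by
    intro x y hxy
    simp only [a]
    rw [← map_pow, ← map_pow, ← map_add, hxy, map_one]
  have hred : ∀ (x y ξ : k) (hxy : x ^ 5 + y ^ 5 = 1) (z : Chart (J s)),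
      rd b s hs h3 (sg s (a x) (a y) (a ξ) (haxy x y hxy) z) = pt h3 x y ξ hxy (rc b s hs z) :=
    fun x y ξ hxy z => rd_sg h3 x y ξ hxy b s hs _ _ _ _ (hbk x) (hbk y) (hbk ξ) z
  have hne : ∀ z : Chart (J s), rc b s hs z ≠ 0 → Th2 s j h0 z ≠ 0 := by
    intro z hz hT
    obtain ⟨x, y, ξ, hxy, hp⟩ := exists_pt h3 _ hz
    apply hp
    rw [← hred]
    have h1 := j_sg s j h0 (a x) (a y) (a ξ) (haxy x y hxy) z
    rw [hT, map_zero, map_eq_zero_iff j hj] at h1
    rw [h1, map_zero]
  have hgT := hne g hg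
  have htT := hne t ht
  have eT : Th2 s j h0 f ^ 5 + Th2 s j h0 h ^ 5 = Th2 s j h0 g ^ 5 := by
    have h1 := congrArg (Th2 s j h0) e
    rw [map_mul, map_zero, map_sub, map_add, map_pow, map_pow, map_pow] at h1
    rcases mul_eq_zero.1 h1 with h2 | h2
    · exact absurd h2 htT
    · exact sub_eq_zero.1 h2
  obtain ⟨l, hl⟩ := flt_two h3F hgT eT
  have hjl : ∀ (x y ξ : A) (hxy : x ^ 5 + y ^ 5 = 1),
      j (sg s x y ξ hxy f) = l * j (sg s x y ξ hxy g) := by
    intro x y ξ hxy
    rw [j_sg s j h0, j_sg s j h0, hl, map_mul, evF_CC]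
  have hcross : ∀ (x y ξ : k) (hxy : x ^ 5 + y ^ 5 = 1) (x' y' ξ' : k)
      (hxy' : x' ^ 5 + y' ^ 5 = 1),
      pt h3 x y ξ hxy (rc b s hs f) * pt h3 x' y' ξ' hxy' (rc b s hs g)
        = pt h3 x' y' ξ' hxy' (rc b s hs f) * pt h3 x y ξ hxy (rc b s hs g) := by
    intro x y ξ hxy x' y' ξ' hxy'
    rw [← hred, ← hred, ← hred, ← hred, ← map_mul, ← map_mul]
    congr 1
    apply hj
    rw [map_mul, map_mul, hjl, hjl]
    ring
  obtain ⟨x1, y1, ξ1, hxy1, hp1⟩ := exists_pt h3 _ hg
  -- the Fermat equation on the line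
  have hF : pt h3 x1 y1 ξ1 hxy1 (rc b s hs f) ^ 5 + pt h3 x1 y1 ξ1 hxy1 (rc b s hs h) ^ 5
      = pt h3 x1 y1 ξ1 hxy1 (rc b s hs g) ^ 5 := by
    have hC : (sg s (a x1) (a y1) (a ξ1) (haxy x1 y1 hxy1) f) ^ 5
        + (sg s (a x1) (a y1) (a ξ1) (haxy x1 y1 hxy1) h) ^ 5
        = (sg s (a x1) (a y1) (a ξ1) (haxy x1 y1 hxy1) g) ^ 5 := by
      apply hj
      have hE := congrArg (evF (j (kp s (a x1 + s * a ξ1))) (j (kp s (a y1)))) eT
      rw [map_add, map_pow, map_pow, map_pow] at hE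
      rw [map_add, map_pow, map_pow, map_pow, j_sg s j h0, j_sg s j h0, j_sg s j h0]
      exact hE
    have hC' := congrArg (rd b s hs h3) hC
    rw [map_add, map_pow, map_pow, map_pow, hred, hred, hred] at hC'
    exact hC'
  obtain ⟨c, d, hc, -⟩ := flt_one h3 hp1 hF
  refine ⟨c, ?_⟩
  by_contra hcon
  have hcon' : rc b s hs f - cn 0 c * rc b s hs g ≠ 0 := fun h => hcon (sub_eq_zero.1 h)
  obtain ⟨x, y, ξ, hxy, hp⟩ := exists_pt h3 _ hcon'
  apply hp
  rw [map_sub, map_mul]
  have hcn : pt h3 x y ξ hxy (cn 0 c) = C c := by rw [pt, chartHom_cn]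
  rw [hcn]
  have h4 := hcross x y ξ hxy x1 y1 ξ1 hxy1
  rw [hc] at h4
  apply mul_right_cancel₀ hp1
  linear_combination h4

end Main

end Pool.Agent.R832.BF
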