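import Pool.Agent.R832.BT.Defs

set_option autoImplicit false

namespace Pool.Agent.R832.BF

open MvPolynomial Pool.Agent.R832.BT

universe u

section Example

variable {R : Type u} [CommRing R]

/-- first equation, homogeneous form of `((1 + s x_2) ^ 5 - 1) / s = x_0 ^ 5` -/
noncomputable def G1 (s : R) : MvPolynomial (Fin 6) R :=
  X 0 ^ 5 - (5 * X 2 * X 5 ^ 4 + 10 * C s * X 2 ^ 2 * X 5 ^ 3 + 10 * C s ^ 2 * X 2 ^ 3 * X 5 ^ 2
    + 5 * C s ^ 3 * X 2 ^ 4 * X 5 + C s ^ 4 * X 2 ^ 5)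

/-- second equation, homogeneous form of `x_1 ^ 5 + x_3 ^ 5 - 1 = s x_4` -/
noncomputable def G2 (s : R) : MvPolynomial (Fin 6) R :=
  X 1 ^ 5 + X 3 ^ 5 - X 5 ^ 5 - C s * X 4 * X 5 ^ 4

/-- the ideal of the family -/
noncomputable def J (s : R) : Ideal (MvPolynomial (Fin 6) R) := Ideal.span {G1 s, G2 s}

lemma map_J {S : Type u} [CommRing S] (f : R →+* S) (s : R) :
    (J s).map (MvPolynomial.map f) = J (f s) := by
  unfold J
  rw [Ideal.map_span, Set.image_pair]
  congr 2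
  · simp [G1]
  · simp [G2]

end Example

end Pool.Agent.R832.BF
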