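import Pool.Agent.R832.BF.Eq
import Pool.Agent.R832.BF.Cu

set_option autoImplicit false

namespace Pool.Agent.R832.BF

open Pool.Agent.R832.BT (Chart fib red LocRing IsHomog IsFamily ConstRing Trivialization)

open MvPolynomial

universe u

variable {R : Type u} [CommRing R]

/-- second equation over the polynomial ring in `c, y, b, w` -/
noncomputable def Q2 (s : R) : Polynomial (MvPolynomial (Fin 4) R) :=
  Polynomial.X ^ 5 + Polynomial.C (X 1 ^ 5 - X 3 ^ 5 - C s * X 2 * X 3 ^ 4)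

lemma Q2_monic (s : R) : (Q2 s).Monic := by
  unfold Q2
  nontriviality R
  exact Polynomial.monic_X_pow_add_C _ (by norm_num)

noncomputable abbrev T1 (s : R) : Type u := AdjoinRoot (Q2 s)

/-- first equation -/
noncomputable def Q1 (s : R) : Polynomial (T1 s) :=
  Polynomial.X ^ 5 + Polynomial.C (AdjoinRoot.of (Q2 s)
    (-(5 * X 0 * X 3 ^ 4 + 10 * C s * X 0 ^ 2 * X 3 ^ 3 + 10 * C s ^ 2 * X 0 ^ 3 * X 3 ^ 2
      + 5 * C s ^ 3 * X 0 ^ 4 * X 3 + C s ^ 4 * X 0 ^ 5)))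

lemma Q1_monic (s : R) : (Q1 s).Monic := by
  unfold Q1
  nontriviality (T1 s)
  exact Polynomial.monic_X_pow_add_C _ (by norm_num)

noncomputable abbrev T2 (s : R) : Type u := AdjoinRoot (Q1 s)

/-- the homogeneous coordinate ring is free over the polynomial ring in `c, y, b, w` -/
noncomputable def em (s : R) : MvPolynomial (Fin 4) R →+* T2 s :=
  (AdjoinRoot.of (Q1 s)).comp (AdjoinRoot.of (Q2 s))

noncomputable def Th (s : R) : MvPolynomial (Fin 6) R →+* T2 s :=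
  eval₂Hom ((em s).comp C) ![AdjoinRoot.root (Q1 s), AdjoinRoot.of (Q1 s) (AdjoinRoot.root (Q2 s)),
    em s (X 0), em s (X 1), em s (X 2), em s (X 3)]

lemma root1 (s : R) : (AdjoinRoot.root (Q1 s)) ^ 5 = em s (5 * X 0 * X 3 ^ 4 + 10 * C s * X 0 ^ 2 * X 3 ^ 3 + 10 * C s ^ 2 * X 0 ^ 3 * X 3 ^ 2
      + 5 * C s ^ 3 * X 0 ^ 4 * X 3 + C s ^ 4 * X 0 ^ 5) := by
  have h := cube_root (AdjoinRoot.of (Q2 s)
    (-(5 * X 0 * X 3 ^ 4 + 10 * C s * X 0 ^ 2 * X 3 ^ 3 + 10 * C s ^ 2 * X 0 ^ 3 * X 3 ^ 2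
      + 5 * C s ^ 3 * X 0 ^ 4 * X 3 + C s ^ 4 * X 0 ^ 5)))
  have h' : (AdjoinRoot.root (Q1 s)) ^ 5 = - AdjoinRoot.of (Q1 s) (AdjoinRoot.of (Q2 s)
      (-(5 * X 0 * X 3 ^ 4 + 10 * C s * X 0 ^ 2 * X 3 ^ 3 + 10 * C s ^ 2 * X 0 ^ 3 * X 3 ^ 2
      + 5 * C s ^ 3 * X 0 ^ 4 * X 3 + C s ^ 4 * X 0 ^ 5))) :=
    eq_neg_of_add_eq_zero_left h
  rw [h', map_neg, map_neg, neg_neg]
  rfl

lemma root2 (s : R) : (AdjoinRoot.of (Q1 s) (AdjoinRoot.root (Q2 s))) ^ 5
    = - em s (X 1 ^ 5 - X 3 ^ 5 - C s * X 2 * X 3 ^ 4) := by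
  have h := cube_root (X 1 ^ 5 - X 3 ^ 5 - C s * X 2 * X 3 ^ 4 : MvPolynomial (Fin 4) R)
  have h' : (AdjoinRoot.root (Q2 s)) ^ 5
      = - AdjoinRoot.of (Q2 s) (X 1 ^ 5 - X 3 ^ 5 - C s * X 2 * X 3 ^ 4) :=
    eq_neg_of_add_eq_zero_left h
  rw [← map_pow, h', map_neg]
  rfl

lemma Th_J (s : R) {f : MvPolynomial (Fin 6) R} (hf : f ∈ J s) : Th s f = 0 := by
  have hle : J s ≤ RingHom.ker (Th s) := by
    unfold J
    rw [Ideal.span_le]
    rintro f (rfl | rfl)
    · have h := root1 s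
      simp only [map_add, map_mul, map_pow, map_ofNat] at h
      simp only [SetLike.mem_coe, RingHom.mem_ker, G1, Th, map_sub, map_pow, map_add, map_mul,
        coe_eval₂Hom, eval₂_X, eval₂_C, map_ofNat, RingHom.comp_apply]
      simp
      linear_combination h
    · have h := root2 s
      simp only [map_sub, map_mul, map_pow] at h
      simp only [SetLike.mem_coe, RingHom.mem_ker, G2, Th, map_sub, map_pow, map_add, map_mul,
        coe_eval₂Hom, eval₂_X, eval₂_C, RingHom.comp_apply]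
      simp
      linear_combination h
  exact RingHom.mem_ker.1 (hle hf)

/-- the quotient map -/
noncomputable abbrev qm (s : R) : MvPolynomial (Fin 6) R →+* MvPolynomial (Fin 6) R ⧸ J s :=
  Ideal.Quotient.mk (J s)

noncomputable def i0 (s : R) : MvPolynomial (Fin 4) R →+* MvPolynomial (Fin 6) R ⧸ J s :=
  eval₂Hom ((qm s).comp C) ![qm s (X 2), qm s (X 3), qm s (X 4), qm s (X 5)]

lemma qm1 (s : R) : qm s (G1 s) = 0 :=
  Ideal.Quotient.eq_zero_iff_mem.2 (Ideal.subset_span (by simp))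

lemma qm2 (s : R) : qm s (G2 s) = 0 :=
  Ideal.Quotient.eq_zero_iff_mem.2 (Ideal.subset_span (by simp))

lemma i0C (s r : R) : i0 s (C r) = qm s (C r) := by simp [i0]
lemma i00 (s : R) : i0 s (X 0) = qm s (X 2) := by simp [i0]
lemma i01 (s : R) : i0 s (X 1) = qm s (X 3) := by simp [i0]
lemma i02 (s : R) : i0 s (X 2) = qm s (X 4) := by simp [i0]
lemma i03 (s : R) : i0 s (X 3) = qm s (X 5) := by simp [i0]

lemma cond1 (s : R) : (Q2 s).eval₂ (i0 s) (qm s (X 1)) = 0 := by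
  apply lift_cond
  have h := qm2 s
  simp only [G2, map_sub, map_add, map_pow, map_mul] at h
  rw [map_sub, map_sub, map_mul, map_mul, map_pow, map_pow, map_pow, i0C, i01, i02, i03]
  linear_combination h

noncomputable def i1 (s : R) : T1 s →+* MvPolynomial (Fin 6) R ⧸ J s :=
  AdjoinRoot.lift (i0 s) (qm s (X 1)) (cond1 s)

lemma i1_of (s : R) (z : MvPolynomial (Fin 4) R) : i1 s (AdjoinRoot.of (Q2 s) z) = i0 s z :=
  AdjoinRoot.lift_of (cond1 s)

lemma i1_root (s : R) : i1 s (AdjoinRoot.root (Q2 s)) = qm s (X 1) :=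
  AdjoinRoot.lift_root (cond1 s)

lemma cond2 (s : R) : (Q1 s).eval₂ (i1 s) (qm s (X 0)) = 0 := by
  apply lift_cond
  have h := qm1 s
  simp only [G1, map_sub, map_add, map_pow, map_mul, map_ofNat] at h
  rw [i1_of]
  simp only [map_neg, map_add, map_mul, map_pow, map_ofNat, i0C, i00, i03]
  linear_combination h

noncomputable def i2 (s : R) : T2 s →+* MvPolynomial (Fin 6) R ⧸ J s :=
  AdjoinRoot.lift (i1 s) (qm s (X 0)) (cond2 s)

lemma i2_of (s : R) (z : T1 s) : i2 s (AdjoinRoot.of (Q1 s) z) = i1 s z :=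
  AdjoinRoot.lift_of (cond2 s)

lemma i2_root (s : R) : i2 s (AdjoinRoot.root (Q1 s)) = qm s (X 0) :=
  AdjoinRoot.lift_root (cond2 s)

lemma i2_em (s : R) (z : MvPolynomial (Fin 4) R) : i2 s (em s z) = i0 s z := by
  unfold em
  rw [RingHom.comp_apply, i2_of, i1_of]

lemma Th_C (s r : R) : Th s (C r) = em s (C r) := by simp [Th]
lemma Th_X (s : R) (i : Fin 6) : Th s (X i) = ![AdjoinRoot.root (Q1 s),
    AdjoinRoot.of (Q1 s) (AdjoinRoot.root (Q2 s)), em s (X 0), em s (X 1), em s (X 2),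
    em s (X 3)] i := by simp [Th]

lemma i2_Th (s : R) (f : MvPolynomial (Fin 6) R) : i2 s (Th s f) = qm s f := by
  have : (i2 s).comp (Th s) = qm s := by
    apply MvPolynomial.ringHom_ext
    · intro r
      rw [RingHom.comp_apply, Th_C, i2_em, i0C]
    · intro j
      rw [RingHom.comp_apply, Th_X]
      fin_cases j
      · exact i2_root s
      · exact (i2_of s _).trans (i1_root s)
      · exact (i2_em s _).trans (i00 s)
      · exact (i2_em s _).trans (i01 s)
      · exact (i2_em s _).trans (i02 s)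
      · exact (i2_em s _).trans (i03 s)
  rw [← RingHom.comp_apply, this]

lemma mem_J_of_Th (s : R) {f : MvPolynomial (Fin 6) R} (hf : Th s f = 0) : f ∈ J s := by
  rw [← Ideal.Quotient.eq_zero_iff_mem]
  have := i2_Th s f
  rw [hf, map_zero] at this
  exact this.symm

/-- nonzero polynomials in `c, y, b, w` are not zero divisors in the homogeneous coordinate ring -/
lemma mem_of_mul_mem [IsDomain R] (s : R) {t : MvPolynomial (Fin 4) R} (ht : t ≠ 0)
    {τ f : MvPolynomial (Fin 6) R} (hτ : Th s τ = em s t) (h : τ * f ∈ J s) : f ∈ J s := by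
  apply mem_J_of_Th
  have h1 := Th_J s h
  rw [map_mul, hτ] at h1
  have : Module.Free (MvPolynomial (Fin 4) R) (T1 s) := (Q2_monic s).free_adjoinRoot
  have : Module.Free (T1 s) (T2 s) := (Q1_monic s).free_adjoinRoot
  have : Module.Free (MvPolynomial (Fin 4) R) (T2 s) :=
    Module.Free.trans (S := T1 s)
  have h2 : t • Th s f = 0 := by
    rw [Algebra.smul_def]
    exact h1
  rcases smul_eq_zero.1 h2 with h3 | h3
  · exact absurd h3 ht
  · exact h3

end Pool.Agent.R832.BF
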