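import Pool.Agent.R832.BF.Dom
import Pool.Agent.R832.BF.Tow

set_option autoImplicit false

namespace Pool.Agent.R832.BF

open Pool.Agent.R832.BT (Chart fib red LocRing IsHomog IsFamily ConstRing Trivialization)

open MvPolynomial

universe u v

attribute [local instance] MvPolynomial.gradedAlgebra

section Gen

variable {R : Type u} [CommRing R]

lemma G1_homog (s : R) : (G1 s).IsHomogeneous 5 := by
  unfold G1
  have h5 : (5 : MvPolynomial (Fin 6) R) = C 5 := (map_ofNat C 5).symm
  have h10 : (10 : MvPolynomial (Fin 6) R) = C 10 := (map_ofNat C 10).symm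
  rw [h5, h10]
  have c5 := isHomogeneous_C (Fin 6) (5 : R)
  have c10 := isHomogeneous_C (Fin 6) (10 : R)
  have cs := isHomogeneous_C (Fin 6) s
  have x2 := isHomogeneous_X R (2 : Fin 6)
  have x5 := isHomogeneous_X R (5 : Fin 6)
  refine IsHomogeneous.sub ?_ (IsHomogeneous.add (IsHomogeneous.add (IsHomogeneous.add
    (IsHomogeneous.add ?_ ?_) ?_) ?_) ?_)
  · exact (isHomogeneous_X R 0).pow 5
  · exact (c5.mul x2).mul (x5.pow 4)
  · exact ((c10.mul cs).mul (x2.pow 2)).mul (x5.pow 3)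
  · exact ((c10.mul (cs.pow 2)).mul (x2.pow 3)).mul (x5.pow 2)
  · exact ((c5.mul (cs.pow 3)).mul (x2.pow 4)).mul x5
  · exact (cs.pow 4).mul (x2.pow 5)

lemma G2_homog (s : R) : (G2 s).IsHomogeneous 5 := by
  unfold G2
  refine IsHomogeneous.sub (IsHomogeneous.sub (IsHomogeneous.add ?_ ?_) ?_) ?_
  · exact (isHomogeneous_X R 1).pow 5
  · exact (isHomogeneous_X R 3).pow 5
  · exact (isHomogeneous_X R 5).pow 5
  · exact ((isHomogeneous_C (Fin 6) s).mul (isHomogeneous_X R 4)).mul ((isHomogeneous_X R 5).pow 4)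

lemma J_isHomog (s : R) : IsHomog (J s) := by
  refine ⟨{G1 s, G2 s}, ?_, rfl⟩
  rintro f (rfl | rfl)
  · exact ⟨5, G1_homog s⟩
  · exact ⟨5, G2_homog s⟩

lemma J_homog' (s : R) : (J s).IsHomogeneous (homogeneousSubmodule (Fin 6) R) := by
  apply Ideal.homogeneous_span
  rintro f (rfl | rfl)
  · exact ⟨5, G1_homog s⟩
  · exact ⟨5, G2_homog s⟩

lemma homog_scale {L : Type v} [CommRing L] (ρ π : MvPolynomial (Fin 6) R →+* L) (w : L)
    (hC : ∀ r, ρ (C r) = π (C r)) (hX : ∀ i, ρ (X i) = w * π (X i)) {f : MvPolynomial (Fin 6) R}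
    {d : ℕ} (hf : f.IsHomogeneous d) : ρ f = w ^ d * π f := by
  conv_lhs => rw [f.as_sum]
  conv_rhs => rw [f.as_sum]
  rw [map_sum, map_sum, Finset.mul_sum]
  apply Finset.sum_congr rfl
  intro m hm
  have hd : m.degree = d := by
    rw [Finsupp.degree_eq_weight_one (R := ℕ)]
    exact hf (mem_support_iff.1 hm)
  rw [monomial_eq, map_mul, map_mul, hC, Finsupp.prod, map_prod, map_prod]
  have h1 : ∀ i ∈ m.support, ρ (X i ^ m i) = w ^ m i * π (X i ^ m i) := by
    intro i _
    rw [map_pow, map_pow, hX, mul_pow]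
  rw [Finset.prod_congr rfl h1, Finset.prod_mul_distrib, Finset.prod_pow_eq_pow_sum,
    ← Finsupp.degree_apply, hd]
  ring

/-- homogeneous elements of the ideal of the chart are in `J` -/
lemma mem_J_of_chart [IsDomain R] (s : R) {f : MvPolynomial (Fin 6) R} {d : ℕ}
    (hf : f.IsHomogeneous d) (hm : f ∈ J s ⊔ Ideal.span {X 5 - 1}) : f ∈ J s := by
  set L := Localization.Away (qm s (X 5))
  let π : MvPolynomial (Fin 6) R →+* L := (algebraMap _ L).comp (qm s)
  let w : L := IsLocalization.Away.invSelf (qm s (X 5))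
  have hw : π (X 5) * w = 1 := IsLocalization.Away.mul_invSelf (qm s (X 5))
  let ρ : MvPolynomial (Fin 6) R →+* L := eval₂Hom (π.comp C) (fun i => w * π (X i))
  have hC : ∀ r, ρ (C r) = π (C r) := by intro r; simp [ρ]
  have hX : ∀ i, ρ (X i) = w * π (X i) := by intro i; simp [ρ]
  have hπ : ∀ g ∈ J s, π g = 0 := by
    intro g hg
    have : qm s g = 0 := Ideal.Quotient.eq_zero_iff_mem.2 hg
    simp only [π, RingHom.comp_apply, this, map_zero]
  have hle : J s ⊔ Ideal.span {X 5 - 1} ≤ RingHom.ker ρ := by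
    refine sup_le ?_ ?_
    · refine Ideal.span_le.2 (fun g hg => ?_)
      have hgJ : g ∈ J s := Ideal.subset_span hg
      have hgh : g.IsHomogeneous 5 := by
        rcases hg with rfl | rfl
        · exact G1_homog s
        · exact G2_homog s
      rw [SetLike.mem_coe, RingHom.mem_ker, homog_scale ρ π w hC hX hgh, hπ g hgJ, mul_zero]
    · rw [Ideal.span_le]
      rintro g (rfl : g = _)
      rw [SetLike.mem_coe, RingHom.mem_ker, map_sub, map_one, hX, mul_comm, hw, sub_self]
  have h0 : ρ f = 0 := RingHom.mem_ker.1 (hle hm)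
  rw [homog_scale ρ π w hC hX hf] at h0
  have h1 : π f = 0 := by
    have : π (X 5) ^ d * (w ^ d * π f) = π f := by
      rw [← mul_assoc, ← mul_pow, hw, one_pow, one_mul]
    rw [← this, h0, mul_zero]
  obtain ⟨⟨m, n, rfl⟩, hn⟩ := (IsLocalization.map_eq_zero_iff (Submonoid.powers (qm s (X 5))) L
    (qm s f)).1 h1
  have h2 : X 5 ^ n * f ∈ J s := by
    rw [← Ideal.Quotient.eq_zero_iff_mem, map_mul, map_pow]
    exact hn
  refine mem_of_mul_mem s (t := X 3 ^ n) (pow_ne_zero _ (X_ne_zero _)) ?_ h2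
  rw [map_pow, map_pow, Th_X]
  rfl

lemma flat_J [IsDedekindDomain R] (s : R) :
    Module.Flat R (MvPolynomial (Fin 6) R ⧸ J s) := by
  have : Module.IsTorsionFree R (MvPolynomial (Fin 6) R ⧸ J s) := by
    apply Module.IsTorsionFree.of_smul_eq_zero
    intro r z h
    by_cases hr : r = 0
    · exact Or.inl hr
    right
    obtain ⟨f, rfl⟩ := Ideal.Quotient.mk_surjective z
    rw [Ideal.Quotient.eq_zero_iff_mem]
    refine mem_of_mul_mem s (t := C r) (by rwa [Ne, C_eq_zero]) (Th_C s r) ?_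
    have hs : (Ideal.Quotient.mk (J s)) (C r * f) = r • (Ideal.Quotient.mk (J s)) f := by
      rw [← MvPolynomial.smul_eq_C_mul]
      rfl
    rw [← Ideal.Quotient.eq_zero_iff_mem, hs, h]
  infer_instance

end Gen

section Fib

variable {k : Type u} [Field k]

lemma chart_domain [IsAlgClosed k] (h3 : (5 : k) ≠ 0) (s : k) : IsDomain (Chart (J s)) := by
  have := chart0_domain h3
  by_cases hs : s = 0
  · rw [hs]; exact this
  · obtain ⟨e⟩ := chart_iso h3 s hs
    exact e.toMulEquiv.isDomain _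

lemma J_prime [IsAlgClosed k] (h3 : (5 : k) ≠ 0) (s : k) : (J s).IsPrime := by
  have hD := chart_domain h3 s
  apply (J_homog' s).isPrime_of_homogeneous_mem_or_mem
  · intro h
    have h1 : (1 : MvPolynomial (Fin 6) k) ∈ J s := by rw [h]; exact Submodule.mem_top
    have h2 : (1 : Chart (J s)) = 0 := by
      rw [← map_one (Ideal.Quotient.mk _)]
      exact Ideal.Quotient.eq_zero_iff_mem.2 (Ideal.mem_sup_left h1)
    exact one_ne_zero h2
  · rintro x y ⟨dx, hx⟩ ⟨dy, hy⟩ hxy
    have h1 : (Ideal.Quotient.mk (J s ⊔ Ideal.span {X 5 - 1}) x)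
        * (Ideal.Quotient.mk (J s ⊔ Ideal.span {X 5 - 1}) y) = 0 := by
      rw [← map_mul]
      exact Ideal.Quotient.eq_zero_iff_mem.2 (Ideal.mem_sup_left hxy)
    rcases mul_eq_zero.1 h1 with h | h
    · left
      exact mem_J_of_chart s hx (Ideal.Quotient.eq_zero_iff_mem.1 h)
    · right
      exact mem_J_of_chart s hy (Ideal.Quotient.eq_zero_iff_mem.1 h)

lemma X5_notMem [IsAlgClosed k] (h3 : (5 : k) ≠ 0) (s : k) :
    (X 5 : MvPolynomial (Fin 6) k) ∉ J s := by
  have hD := chart_domain h3 s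
  intro h
  have h1 : vr s 5 = 0 := Ideal.Quotient.eq_zero_iff_mem.2 (Ideal.mem_sup_left h)
  rw [vr5] at h1
  exact one_ne_zero h1

lemma ff_iso [IsAlgClosed k] (h3 : (5 : k) ≠ 0) (s : k) : Nonempty
    (FractionRing (Chart (J s)) ≃ₐ[k] FractionRing (Chart (J (0 : k)))) := by
  by_cases hs : s = 0
  · rw [hs]; exact ⟨AlgEquiv.refl⟩
  · obtain ⟨e⟩ := chart_iso h3 s hs
    have hD := chart_domain h3 s
    have hD0 := chart0_domain h3
    let E := IsFractionRing.ringEquivOfRingEquiv (K := FractionRing (Chart (J s)))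
      (L := FractionRing (Chart (J (0 : k)))) e.toRingEquiv
    refine ⟨AlgEquiv.ofRingEquiv (f := E) ?_⟩
    intro r
    rw [IsScalarTower.algebraMap_apply k (Chart (J s)) (FractionRing (Chart (J s))),
      IsScalarTower.algebraMap_apply k (Chart (J (0 : k))) (FractionRing (Chart (J (0 : k)))),
      IsFractionRing.ringEquivOfRingEquiv_algebraMap]
    congr 1
    exact e.commutes r

end Fib

open Polynomial in
theorem isFamily {k : Type u} [Field k] [IsAlgClosed k] (h3 : (5 : k) ≠ 0) :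
    IsFamily (J (Polynomial.X : k[X])) where
  homogeneous := J_isHomog _
  flat := flat_J _
  fib_prime c := by
    rw [fib, map_J]
    exact J_prime h3 _
  fib_ne c := by
    rw [fib, map_J]
    exact X5_notMem h3 _
  birational c d := by
    have key : ∀ c : k, Nonempty
      (FractionRing (Chart (fib (Polynomial.evalRingHom c) (J (Polynomial.X : k[X])))) ≃ₐ[k]
        FractionRing (Chart (J (0 : k)))) := by
      intro c
      rw [fib, map_J]
      exact ff_iso h3 _
    obtain ⟨e⟩ := key c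
    obtain ⟨e'⟩ := key d
    exact ⟨e.trans e'.symm⟩

end Pool.Agent.R832.BF
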