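import Pool.Agent.R832.BF.Core
import Pool.Agent.R832.BF.Fam

set_option autoImplicit false

namespace Pool.Agent.R832.BF

open Pool.Agent.R832.BT (Chart fib red LocRing IsHomog IsFamily ConstRing Trivialization)

open scoped TensorProduct

universe u

section Local

variable {k : Type u} [Field k] [IsAlgClosed k] (h3 : (5 : k) ≠ 0)
  {A : Type u} [CommRing A] [IsDomain A] [Algebra k A] (β : A →ₐ[k] k) (s : A) (hs0 : s ≠ 0)
  (hs : β.toRingHom s = 0)

/-- comparison of the two reductions -/
lemma rc_eq (z : Chart (J s)) :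
    (Ideal.quotEquivOfEq (show fib β.toRingHom (J s) ⊔ Ideal.span {MvPolynomial.X 5 - 1}
      = J (0 : k) ⊔ Ideal.span {MvPolynomial.X 5 - 1} by rw [fib, map_J, hs]))
        (red β.toRingHom (J s) z) = rc β.toRingHom s hs z := by
  set E := (Ideal.quotEquivOfEq (show fib β.toRingHom (J s) ⊔ Ideal.span {MvPolynomial.X 5 - 1}
      = J (0 : k) ⊔ Ideal.span {MvPolynomial.X 5 - 1} by rw [fib, map_J, hs])) with hE
  have : (E.toRingHom.comp (red β.toRingHom (J s))) = rc β.toRingHom s hs := by
    apply chart_ext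
    · intro r
      rw [rc, chartHom_cn]
      simp only [RingHom.comp_apply, cn, red, Ideal.quotientMap_mk]
      rw [MvPolynomial.map_C]
      rfl
    · intro i
      rw [rc, chartHom_vr]
      simp only [RingHom.comp_apply, vr, red, Ideal.quotientMap_mk]
      rw [MvPolynomial.map_X]
      fin_cases i
      · rfl
      · rfl
      · rfl
      · rfl
      · rfl
      · exact vr5 0
  rw [← this]
  rfl

include h3 in
lemma mem_iff (z : Chart (J s)) :
    z ∈ (nonZeroDivisors (Chart (fib β.toRingHom (J s)))).comap (red β.toRingHom (J s))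
      ↔ rc β.toRingHom s hs z ≠ 0 := by
  have hD := chart0_domain h3
  rw [← rc_eq β s hs z]
  set E := (Ideal.quotEquivOfEq (show fib β.toRingHom (J s) ⊔ Ideal.span {MvPolynomial.X 5 - 1}
      = J (0 : k) ⊔ Ideal.span {MvPolynomial.X 5 - 1} by rw [fib, map_J, hs])) with hE
  have hD' : IsDomain (Chart (fib β.toRingHom (J s))) := E.toMulEquiv.isDomain _
  rw [Submonoid.mem_comap, mem_nonZeroDivisors_iff_ne_zero]
  exact not_congr (map_eq_zero_iff E E.injective).symm

include h3 hs0 hs in
/-- two solutions of the Fermat equation in the local ring: the first one is constant modulo the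
maximal ideal -/
theorem core_local (U V : LocRing β.toRingHom (J s)) (e : U ^ 5 + V ^ 5 = 1) :
    ∃ c : k, ¬ IsUnit (U - algebraMap A (LocRing β.toRingHom (J s)) (algebraMap k A c)) := by
  have hD := chart0_domain h3
  set M := (nonZeroDivisors (Chart (fib β.toRingHom (J s)))).comap (red β.toRingHom (J s)) with hM
  have hMm : ∀ z, z ∈ M ↔ rc β.toRingHom s hs z ≠ 0 := mem_iff h3 β s hs
  let q : Chart (J s) →+* LocRing β.toRingHom (J s) := algebraMap _ _
  obtain ⟨f, g1, hU⟩ := IsLocalization.exists_mk'_eq M U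
  obtain ⟨h, g2, hV⟩ := IsLocalization.exists_mk'_eq M V
  have hg1 : IsUnit (q g1) := IsLocalization.map_units _ g1
  have hg2 : IsUnit (q g2) := IsLocalization.map_units _ g2
  have hUe : U * q g1 = q f := by
    rw [← hU]; exact IsLocalization.mk'_spec _ f g1
  have hVe : V * q g2 = q h := by
    rw [← hV]; exact IsLocalization.mk'_spec _ h g2
  have e1 : q ((f * g2) ^ 5 + (h * g1) ^ 5 - (g1 * g2) ^ 5) = 0 := by
    simp only [map_sub, map_add, map_mul, map_pow]
    rw [← hUe, ← hVe]
    linear_combination ((q g1) ^ 5 * (q g2) ^ 5) * e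
  obtain ⟨t, ht⟩ := (IsLocalization.map_eq_zero_iff M (LocRing β.toRingHom (J s)) _).1 e1
  have ht0 := (hMm t).1 t.2
  have hg0 : rc β.toRingHom s hs ((g1 : Chart (J s)) * g2) ≠ 0 := by
    rw [map_mul]
    exact mul_ne_zero ((hMm g1).1 g1.2) ((hMm g2).1 g2.2)
  obtain ⟨c, hc⟩ := core h3 β s hs0 hs (f * g2) (h * g1) (g1 * g2) t ht ht0 hg0
  refine ⟨c, fun hunit => ?_⟩
  -- the residue map
  let Kf := FractionRing (Chart (J (0 : k)))
  let r0 : Chart (J s) →+* Kf := (algebraMap (Chart (J (0 : k))) Kf).comp (rc β.toRingHom s hs)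
  have hr0 : ∀ y : M, IsUnit (r0 y) := by
    intro y
    apply IsUnit.mk0
    change algebraMap (Chart (J (0 : k))) Kf (rc β.toRingHom s hs y) ≠ 0
    rw [Ne, FaithfulSMul.algebraMap_eq_zero_iff]
    exact (hMm y).1 y.2
  let res : LocRing β.toRingHom (J s) →+* Kf := IsLocalization.lift hr0
  have hres : ∀ z, res (q z) = r0 z := fun z => IsLocalization.lift_eq hr0 z
  have hcn : algebraMap A (LocRing β.toRingHom (J s)) (algebraMap k A c)
      = q (cn s (algebraMap k A c)) := rfl
  have h1 : (U - algebraMap A (LocRing β.toRingHom (J s)) (algebraMap k A c)) * q (g1 * g2)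
      = q (f * g2 - cn s (algebraMap k A c) * (g1 * g2)) := by
    rw [hcn, map_sub, map_mul, map_mul, map_mul, map_mul, ← hUe]
    ring
  have h2 : IsUnit (q (f * g2 - cn s (algebraMap k A c) * (g1 * g2))) := by
    rw [← h1, map_mul]
    exact hunit.mul (hg1.mul hg2)
  have h4 := h2.map res
  rw [hres] at h4
  have h5 : r0 (f * g2 - cn s (algebraMap k A c) * (g1 * g2)) = 0 := by
    change algebraMap (Chart (J (0 : k))) Kf (rc β.toRingHom s hs _) = 0
    rw [map_sub (rc β.toRingHom s hs), hc, map_mul (rc β.toRingHom s hs) (cn s _)]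
    have h6 : rc β.toRingHom s hs (cn s (algebraMap k A c)) = cn 0 c := by
      rw [rc, chartHom_cn]
      change cn 0 (β (algebraMap k A c)) = cn 0 c
      rw [β.commutes]
      rfl
    rw [h6, sub_self, map_zero]
  rw [h5] at h4
  exact not_isUnit_zero h4

end Local

section Const

variable {k : Type u} [Field k] {A : Type u} [CommRing A] [Algebra k A] (β : A →ₐ[k] k)
  {K : Type u} [Field K] [Algebra k K]

/-- in the local ring of a constant family there are solutions of the Fermat equation which are not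
constant modulo the maximal ideal -/
lemma const_sol (u v : K) (e : u ^ 5 + v ^ 5 = 1) (hu : ∀ c : k, algebraMap k K c ≠ u) :
    ∃ U V : ConstRing A β K, U ^ 5 + V ^ 5 = 1 ∧
      ∀ c : k, IsUnit (U - algebraMap A (ConstRing A β K) (algebraMap k A c)) := by
  set M := (nonZeroDivisors K).comap (Algebra.TensorProduct.lift ((Algebra.ofId k K).comp β)
    (AlgHom.id k K) (fun _ _ => Commute.all _ _)) with hM
  let q : A ⊗[k] K →+* ConstRing A β K := algebraMap (A ⊗[k] K) (ConstRing A β K)
  refine ⟨q (1 ⊗ₜ u), q (1 ⊗ₜ v), ?_, ?_⟩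
  · rw [← map_pow, ← map_pow, ← map_add, Algebra.TensorProduct.tmul_pow,
      Algebra.TensorProduct.tmul_pow, one_pow, ← TensorProduct.tmul_add, e,
      ← Algebra.TensorProduct.one_def, map_one]
  · intro c
    have h1 : algebraMap A (ConstRing A β K) (algebraMap k A c) = q (algebraMap k A c ⊗ₜ 1) := rfl
    rw [h1, ← map_sub]
    have hmem : (1 ⊗ₜ u - algebraMap k A c ⊗ₜ 1 : A ⊗[k] K) ∈ M := by
      rw [hM, Submonoid.mem_comap, mem_nonZeroDivisors_iff_ne_zero, map_sub,
        Algebra.TensorProduct.lift_tmul, Algebra.TensorProduct.lift_tmul, map_one, map_one,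
        one_mul, mul_one]
      change u - algebraMap k K (β (algebraMap k A c)) ≠ 0
      rw [β.commutes]
      intro h
      exact hu c (sub_eq_zero.1 h).symm
    exact IsLocalization.map_units (ConstRing A β K) ⟨_, hmem⟩

end Const

section Final

variable {k : Type u} [Field k] [IsAlgClosed k] (h3 : (5 : k) ≠ 0)

include h3 in
/-- a solution of the Fermat equation in the function field of the fibres -/
lemma fermat_pair : ∃ u v : FractionRing (Chart (J (0 : k))), u ^ 5 + v ^ 5 = 1 ∧
    ∀ c : k, algebraMap k (FractionRing (Chart (J (0 : k)))) c ≠ u := by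
  have hD := chart0_domain h3
  let q := algebraMap (Chart (J (0 : k))) (FractionRing (Chart (J (0 : k))))
  refine ⟨q (vr 0 1), q (vr 0 3), ?_, ?_⟩
  · rw [← map_pow, ← map_pow, ← map_add, ← map_one q]
    congr 1
    have h := rel2 (0 : k)
    rw [map_zero] at h
    linear_combination h
  · intro c hc
    rw [IsScalarTower.algebraMap_apply k (Chart (J (0 : k)))] at hc
    have h1 : algebraMap k (Chart (J (0 : k))) c = vr 0 1 :=
      FaithfulSMul.algebraMap_injective _ _ hc
    have h2 : cn (0 : k) c = vr 0 1 := h1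
    have h01 : (0 : k) ^ 5 + 1 ^ 5 = 1 := by ring
    have h10 : (1 : k) ^ 5 + 0 ^ 5 = 1 := by ring
    have e1 := congrArg (pt h3 1 0 0 h10) h2
    have e2 := congrArg (pt h3 0 1 0 h01) h2
    rw [pt, chartHom_vr, chartHom_cn] at e1 e2
    change Polynomial.C c = Polynomial.C 1 at e1
    change Polynomial.C c = Polynomial.C 0 at e2
    have e3 := Polynomial.C_injective e1
    have e4 := Polynomial.C_injective e2
    rw [e3] at e4
    exact one_ne_zero e4

include h3 in
lemma fermat_pair_of {I : Ideal (MvPolynomial (Fin 6) k)} (hI : I = J (0 : k)) :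
    ∃ u v : FractionRing (Chart I), u ^ 5 + v ^ 5 = 1 ∧
      ∀ c : k, algebraMap k (FractionRing (Chart I)) c ≠ u := by
  subst hI
  exact fermat_pair h3

include h3 in
theorem no_iso {A : Type u} [CommRing A] [IsDomain A] [Algebra k A] (β : A →ₐ[k] k) (s : A)
    (hs0 : s ≠ 0) (hs : β.toRingHom s = 0) {K₀ : Type u} [Field K₀] [Algebra k K₀]
    (u v : K₀) (huv : u ^ 5 + v ^ 5 = 1) (hu : ∀ c : k, algebraMap k K₀ c ≠ u)
    {I : Ideal (MvPolynomial (Fin 6) A)} (hI : I = J s)
    (iso : LocRing β.toRingHom I ≃ₐ[A] ConstRing A β K₀) : False := by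
  subst hI
  obtain ⟨U, V, hUV, hU⟩ := const_sol (A := A) β u v huv hu
  obtain ⟨c, hc⟩ := core_local h3 β s hs0 hs (iso.symm U) (iso.symm V) (by
    rw [← map_pow, ← map_pow, ← map_add, hUV, map_one])
  apply hc
  have := (hU c).map iso.symm
  rwa [map_sub, AlgEquiv.commutes] at this

open Polynomial in
include h3 in
theorem no_trivialization (K₀ : Type u) [Field K₀] [Algebra k K₀]
    (E : K₀ ≃ₐ[k] FractionRing (Chart (fib (Polynomial.evalRingHom 0) (J (Polynomial.X : k[X]))))) :
    IsEmpty (Trivialization (J (Polynomial.X : k[X])) 0 K₀) := by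
  refine ⟨fun T => ?_⟩
  let i1 := T.commRing
  let i2 := T.algebra
  let i3 := T.algebraPoly
  have i4 := T.tower
  have i5 := T.isDomain
  obtain ⟨u, v, h1, h2⟩ := fermat_pair_of h3 (I := fib (Polynomial.evalRingHom 0)
    (J (Polynomial.X : k[X]))) (by rw [fib, map_J]; simp)
  let s : T.R' := algebraMap k[X] T.R' Polynomial.X
  have hb : T.b'.toRingHom s = 0 := by
    have h3 : (T.b'.toRingHom.comp (algebraMap k[X] T.R')) Polynomial.X
      = (Polynomial.evalRingHom 0) Polynomial.X := by rw [T.comp_eq]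
    refine Eq.trans h3 ?_
    simp
  have hs0 : s ≠ 0 := by
    intro h0
    have hg0 : T.g ≠ 0 := by
      intro h
      apply T.mem
      rw [h, Polynomial.eval_zero]
    have h1 : T.φ (algebraMap k[X] (Localization.Away T.g) Polynomial.X) = 0 :=
      (T.φ.commutes _).trans h0
    rw [map_eq_zero_iff T.φ T.injective] at h1
    have h2 : (Polynomial.X : k[X]) = 0 := by
      have hinj : Function.Injective (algebraMap k[X] (Localization.Away T.g)) :=
        IsLocalization.injective _ (powers_le_nonZeroDivisors_of_noZeroDivisors hg0)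
      exact (map_eq_zero_iff _ hinj).1 h1
    exact Polynomial.X_ne_zero h2
  refine no_iso h3 T.b' s hs0 hb (E.symm u) (E.symm v) ?_ ?_ (map_J (algebraMap k[X] T.R') _) T.iso
  · rw [← map_pow, ← map_pow, ← map_add, h1, map_one]
  · intro c hc
    apply h2 c
    rw [← E.commutes, hc, AlgEquiv.apply_symm_apply]

end Final

end Pool.Agent.R832.BF
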